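import Pool.Agent.W370.EX.LabX

/-!
Project EX: the logarithmic average is small (S_MAINX).
-/

set_option autoImplicit false

namespace Pool.Agent.W370.EX

open Finset Filter
open Pool.Agent.W78.GA (Qd nm prim dt ip lat pball ball edge dedge)
open Pool.Agent.W78.EC (Gi cone cw PQ th good Tr TT res av InG S_DCP S_LOSS S_PCNT)
open Pool.Agent.W251.GX (Cm)
open Pool.Agent.W251.EX
open Pool.Agent.W540.EC (PQ_mem)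
open Pool.Agent.W78.EC.Fx (harm_le sum_split exists_pi InG_ip log_nonneg_PQ)

/-- the decoupling error -/
noncomputable def Dec (K Q : ℕ) (X : ℝ) {A : Type} (lab : Gi → A)
    (ζ₁ ζ₂ : ℕ → Tr A → ℕ × ℕ × ℕ × ℕ → ℝ) : ℝ :=
  ∑ e ∈ edge 0 1 (X / (K * Q)),
      (|∑ p ∈ PQ Q, Real.log p * (ζ₁ p (TT lab X e) (res p e) - av p (ζ₁ p) (TT lab X e))| +
        |∑ p ∈ PQ Q, Real.log p * (ζ₂ p (TT lab X e) (res p e) - av p (ζ₂ p) (TT lab X e))|)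

theorem Dec_nonneg (K Q : ℕ) (X : ℝ) {A : Type} (lab : Gi → A)
    (ζ₁ ζ₂ : ℕ → Tr A → ℕ × ℕ × ℕ × ℕ → ℝ) : 0 ≤ Dec K Q X lab ζ₁ ζ₂ :=
  sum_nonneg fun _ _ => add_nonneg (abs_nonneg _) (abs_nonneg _)

/-- the weighted sum over the primes -/
noncomputable def SX (g : Gi × Gi → ℂ) (s₁ s₂ s₃ s₄ : ℝ) (Q : ℕ) (X : ℝ) : ℂ :=
  ∑ p ∈ PQ Q, ((Real.log p * ((p : ℝ) + 1) : ℝ) : ℂ) * AG g s₁ s₂ s₃ s₄ (X / p)

/-- the conclusion of `S_ZX` for one pair of functions -/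
def ZP (K : ℕ) (κ : ℝ) (Q : ℕ) {A : Type} (d₁ d₂ : A → ℂ) (r : ℕ → ℤ)
    (ζ₁ ζ₂ : ℕ → Tr A → ℕ × ℕ × ℕ × ℕ → ℝ) : Prop :=
  ∀ (lab : Gi → A) (X : ℝ), 2 * (K * Q : ℝ) ≤ X → ∀ e ∈ good K κ Q X, ∀ p ∈ PQ Q,
  (((ζ₁ p (TT lab X e) (res p e) : ℝ) : ℂ) + Complex.I * ((ζ₂ p (TT lab X e) (res p e) : ℝ) : ℂ) =
    (((p : ℝ) + 1) / (2 * Q) : ℝ) * ∑ z ∈ cone X e.1 e.2, ∑ w ∈ cone X e.1 e.2,
      (open scoped Classical in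
        if dt z w = p ∧ lat p (r p) z then d₁ (lab z) * d₂ (lab w) else 0)) ∧
  (((av p (ζ₁ p) (TT lab X e) : ℝ) : ℂ) + Complex.I * ((av p (ζ₂ p) (TT lab X e) : ℝ) : ℂ) =
    (1 / (2 * (Q : ℝ)) : ℝ) * ∑ z ∈ cone X e.1 e.2, ∑ w ∈ cone X e.1 e.2,
      (if dt z w = p then d₁ (lab z) * d₂ (lab w) else 0))

/-- the estimate for fixed `X` -/
theorem per_X (hP : S_PERX) {N : ℕ} {τ : ℂ} {F₁ F₂ : Gi → ℂ} (h : Pr N τ F₁ F₂) {q : ℕ} [NeZero q]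
    {R : Gi → Gi → Prop} (hR : Rel q R) {s s₁ s₂ s₃ s₄ : ℝ}
    (hs₁ : 0 < s₁) (hs₃ : 0 < s₃) (hs1 : s ≤ s₁) (hs3 : s ≤ s₃) {K : ℕ} {κ : ℝ} {Q : ℕ} {X : ℝ}
    (hK : 1 ≤ K) (hκ : 0 < κ) (hQ : 1 ≤ Q) (hqQ : q ≤ Q) (hX : 2 * (K * Q : ℝ) ≤ X)
    (ϖ : ℕ → Gi) (rr : ℕ → ℤ) (hϖ : ∀ p ∈ PQ Q, nm (ϖ p) = p ∧ lat p (rr p) (ϖ p) ∧
      (p : ℤ) ∣ rr p ^ 2 + 1)
    (ζ₁ ζ₂ : Cq q × Cq q → ℕ → Tr (La N q) → ℕ × ℕ × ℕ × ℕ → ℝ)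
    (hζ : ∀ ab, ZP K κ Q (D1 N ab.1) (D2 N ab.2) rr (ζ₁ ab) (ζ₂ ab)) {E ε' : ℝ}
    (hbil : ∀ ab : Cq q × Cq q,
      ‖∑ e ∈ good K κ Q X, ∑ v ∈ cone X e.1 e.2, ∑ w ∈ cone X e.1 e.2,
        D1 N ab.1 (labX N q s₁ s₂ s₃ s₄ X F₁ F₂ v) * D2 N ab.2 (labX N q s₁ s₂ s₃ s₄ X F₁ F₂ w) *
          (th Q (dt v w) : ℂ)‖ ≤ 4 * E) (hε' : 0 ≤ ε')
    (hL : ∀ p ∈ PQ Q, ∀ π : Gi, nm π = p →
      (open scoped Classical in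
      (((dedge 0 1 (X / p)).filter (fun e => 0 < ip e.1 e.2 ∧ s * (X / p) < (nm e.1 : ℝ) ∧
        s * (X / p) < (nm e.2 : ℝ) ∧ ¬ InG K κ Q X π e)).card : ℝ)) ≤ ε' * (X / p)) :
    ‖SX (g2 F₁ F₂ R) s₁ s₂ s₃ s₄ Q X‖ ≤
      2 * Q * (∑ ab ∈ PR q R, Dec K Q X (labX N q s₁ s₂ s₃ s₄ X F₁ F₂) (ζ₁ ab) (ζ₂ ab)) +
        ((PR q R).card * (4 * E) + 2 * ε' * X * ∑ p ∈ PQ Q, Real.log p) := by
  classical
  have hK0 : (0 : ℝ) < K := by exact_mod_cast hK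
  have hQ0 : (0 : ℝ) < Q := by exact_mod_cast hQ
  have hX0 : 0 ≤ X := le_trans (by positivity) hX
  have hq0 : 0 < q := Nat.pos_of_ne_zero (NeZero.ne q)
  set lab := labX N q s₁ s₂ s₃ s₄ X F₁ F₂ with hlab
  set G : Cq q × Cq q → ℕ → ℂ := fun ab p => ∑ e ∈ (dedge 0 1 (X / p)).filter (InG K κ Q X (ϖ p)),
    D1 N ab.1 (lab (ϖ p * e.1)) * D2 N ab.2 (lab (ϖ p * e.2)) with hG
  -- each pair of classes
  have hab : ∀ ab : Cq q × Cq q, ‖∑ p ∈ PQ Q, ((Real.log p * ((p : ℝ) + 1) : ℝ) : ℂ) * G ab p‖ ≤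
      2 * Q * Dec K Q X lab (ζ₁ ab) (ζ₂ ab) + 4 * E := by
    intro ab
    have h1 := hP K κ Q X (La N q) (D1 N ab.1) (D2 N ab.2) lab ϖ rr (ζ₁ ab) (ζ₂ ab) hK hκ hQ hX hϖ
      (fun e he p hp => hζ ab lab X hX e he p hp)
    exact h1.trans (add_le_add le_rfl (hbil ab))
  have hsum : ‖∑ p ∈ PQ Q, ((Real.log p * ((p : ℝ) + 1) : ℝ) : ℂ) * ∑ ab ∈ PR q R, G ab p‖ ≤
      2 * Q * (∑ ab ∈ PR q R, Dec K Q X lab (ζ₁ ab) (ζ₂ ab)) + (PR q R).card * (4 * E) := by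
    have h1 : ∑ p ∈ PQ Q, ((Real.log p * ((p : ℝ) + 1) : ℝ) : ℂ) * ∑ ab ∈ PR q R, G ab p =
        ∑ ab ∈ PR q R, ∑ p ∈ PQ Q, ((Real.log p * ((p : ℝ) + 1) : ℝ) : ℂ) * G ab p := by
      simp only [mul_sum]
      rw [sum_comm]
    rw [h1]
    refine (norm_sum_le _ _).trans ((sum_le_sum fun ab _ => hab ab).trans (le_of_eq ?_))
    rw [sum_add_distrib, ← mul_sum, sum_const, nsmul_eq_mul]
  -- the loss
  have hloss : ‖τ * SX (g2 F₁ F₂ R) s₁ s₂ s₃ s₄ Q X -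
      ∑ p ∈ PQ Q, ((Real.log p * ((p : ℝ) + 1) : ℝ) : ℂ) * ∑ ab ∈ PR q R, G ab p‖ ≤
      2 * ε' * X * ∑ p ∈ PQ Q, Real.log p := by
    unfold SX
    rw [mul_sum, ← sum_sub_distrib, mul_sum]
    refine (norm_sum_le _ _).trans (sum_le_sum fun p hp => ?_)
    have hpp := (PQ_mem hp).2.2.1
    have hp0 : (0 : ℝ) < p := by exact_mod_cast hpp.pos
    have hp1 : (1 : ℝ) ≤ p := by exact_mod_cast hpp.one_lt.le
    have hcop : Nat.Coprime p q := by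
      rw [Nat.Prime.coprime_iff_not_dvd hpp]
      intro hdvd
      have := Nat.le_of_dvd hq0 hdvd
      have := (PQ_mem hp).1
      omega
    have h1 := AG_split h hR hpp hcop (hϖ p hp).1 (s := s) (s₁ := s₁) (s₂ := s₂) (s₃ := s₃)
      (s₄ := s₄) (X := X) (by positivity) (by positivity) (mul_le_mul_of_nonneg_right hs1 hX0)
      (mul_le_mul_of_nonneg_right hs3 hX0) (K := K) (κ := κ) (Q := Q)
      (fun e he => InG_ip (by positivity) hX he)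
      (hL p hp _ (hϖ p hp).1)
    have h2 : τ * (((Real.log p * ((p : ℝ) + 1) : ℝ) : ℂ) * AG (g2 F₁ F₂ R) s₁ s₂ s₃ s₄ (X / p)) -
        ((Real.log p * ((p : ℝ) + 1) : ℝ) : ℂ) * ∑ ab ∈ PR q R, G ab p =
        ((Real.log p * ((p : ℝ) + 1) : ℝ) : ℂ) *
        (τ * AG (g2 F₁ F₂ R) s₁ s₂ s₃ s₄ (X / p) - ∑ ab ∈ PR q R, G ab p) := by ring
    rw [h2, norm_mul, Complex.norm_real, Real.norm_eq_abs,
      abs_of_nonneg (mul_nonneg (log_nonneg_PQ hp) (by positivity))]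
    calc Real.log p * ((p : ℝ) + 1) *
          ‖τ * AG (g2 F₁ F₂ R) s₁ s₂ s₃ s₄ (X / p) - ∑ ab ∈ PR q R, G ab p‖
        ≤ Real.log p * ((p : ℝ) + 1) * (ε' * (X / p)) :=
          mul_le_mul_of_nonneg_left h1 (mul_nonneg (log_nonneg_PQ hp) (by positivity))
      _ = Real.log p * ε' * X * (((p : ℝ) + 1) / p) := by ring
      _ ≤ Real.log p * ε' * X * 2 := by
          refine mul_le_mul_of_nonneg_left ?_
            (mul_nonneg (mul_nonneg (log_nonneg_PQ hp) hε') hX0)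
          rw [div_le_iff₀ hp0]
          linarith
      _ = 2 * ε' * X * Real.log p := by ring
  have hτ : ‖τ * SX (g2 F₁ F₂ R) s₁ s₂ s₃ s₄ Q X‖ = ‖SX (g2 F₁ F₂ R) s₁ s₂ s₃ s₄ Q X‖ := by
    rw [norm_mul, tau_norm h, one_mul]
  rw [← hτ]
  have h3 := norm_add_le (τ * SX (g2 F₁ F₂ R) s₁ s₂ s₃ s₄ Q X -
      ∑ p ∈ PQ Q, ((Real.log p * ((p : ℝ) + 1) : ℝ) : ℂ) * ∑ ab ∈ PR q R, G ab p)
      (∑ p ∈ PQ Q, ((Real.log p * ((p : ℝ) + 1) : ℝ) : ℂ) * ∑ ab ∈ PR q R, G ab p)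
  rw [sub_add_cancel] at h3
  linarith

/-- the averaging over the primes -/
theorem avg_primes {g : Gi × Gi → ℂ} {s₁ s₂ s₃ s₄ C : ℝ} (hC0 : 0 ≤ C) {Q Q₂ N : ℕ}
    (hQ2 : Q ≤ Q₂) (hN : 1 ≤ N)
    (hC : ∀ p N : ℕ, 1 ≤ p → 1 ≤ N →
      ‖∑ X ∈ Icc 1 N, (((p : ℝ) / (X : ℝ) ^ 2 : ℝ) : ℂ) * AG g s₁ s₂ s₃ s₄ ((X : ℝ) / p) -
        ∑ X ∈ Icc 1 N, ((1 / (X : ℝ) ^ 2 : ℝ) : ℂ) * AG g s₁ s₂ s₃ s₄ X‖ ≤ C * (1 + Real.log p)) :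
    (∑ p ∈ PQ Q, Real.log p * (((p : ℝ) + 1) / p)) *
      ‖∑ X ∈ Icc 1 N, ((1 / (X : ℝ) ^ 2 : ℝ) : ℂ) * AG g s₁ s₂ s₃ s₄ X‖ ≤
    (∑ p ∈ PQ Q, Real.log p * (((p : ℝ) + 1) / p)) * (C * (1 + Real.log (2 * Q₂))) +
      ‖∑ X ∈ Icc 1 N, ((1 / (X : ℝ) ^ 2 : ℝ) : ℂ) * SX g s₁ s₂ s₃ s₄ Q X‖ := by
  set T := ∑ X ∈ Icc 1 N, ((1 / (X : ℝ) ^ 2 : ℝ) : ℂ) * AG g s₁ s₂ s₃ s₄ X with hT
  set θ : ℕ → ℝ := fun p => Real.log p * (((p : ℝ) + 1) / p) with hθ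
  set Tp : ℕ → ℂ := fun p => ∑ X ∈ Icc 1 N, (((p : ℝ) / (X : ℝ) ^ 2 : ℝ) : ℂ) *
    AG g s₁ s₂ s₃ s₄ ((X : ℝ) / p) with hTp
  have hθ0 : ∀ p ∈ PQ Q, 0 ≤ θ p := fun p hp =>
    mul_nonneg (log_nonneg_PQ hp) (by positivity)
  have h1 : ∑ X ∈ Icc 1 N, ((1 / (X : ℝ) ^ 2 : ℝ) : ℂ) * SX g s₁ s₂ s₃ s₄ Q X =
      ∑ p ∈ PQ Q, (θ p : ℂ) * Tp p := by
    unfold SX
    simp only [hTp, mul_sum]
    rw [sum_comm]
    refine sum_congr rfl fun p hp => sum_congr rfl fun X _ => ?_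
    have hp0 : (p : ℝ) ≠ 0 := by exact_mod_cast (PQ_mem hp).2.2.1.ne_zero
    rw [← mul_assoc, ← mul_assoc, ← Complex.ofReal_mul, ← Complex.ofReal_mul]
    congr 2
    simp only [hθ]
    field_simp
  have h2 : ((∑ p ∈ PQ Q, θ p : ℝ) : ℂ) * T = ∑ p ∈ PQ Q, (θ p : ℂ) * (T - Tp p) +
      ∑ X ∈ Icc 1 N, ((1 / (X : ℝ) ^ 2 : ℝ) : ℂ) * SX g s₁ s₂ s₃ s₄ Q X := by
    rw [h1, ← sum_add_distrib, Complex.ofReal_sum, sum_mul]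
    refine sum_congr rfl fun p _ => ?_
    ring
  have h3 : ‖∑ p ∈ PQ Q, (θ p : ℂ) * (T - Tp p)‖ ≤
      (∑ p ∈ PQ Q, θ p) * (C * (1 + Real.log (2 * Q₂))) := by
    rw [sum_mul]
    refine (norm_sum_le _ _).trans (sum_le_sum fun p hp => ?_)
    rw [norm_mul, Complex.norm_real, Real.norm_eq_abs, abs_of_nonneg (hθ0 p hp)]
    refine mul_le_mul_of_nonneg_left ?_ (hθ0 p hp)
    have hp1 := (PQ_mem hp).2.2.1.one_lt.le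
    have h4 := hC p N hp1 hN
    rw [norm_sub_rev] at h4
    refine h4.trans (mul_le_mul_of_nonneg_left ?_ hC0)
    have h5 : (p : ℝ) ≤ 2 * Q₂ := by
      have h6 : p ≤ 2 * Q₂ := by
        have := (PQ_mem hp).2.1
        omega
      exact_mod_cast h6
    have h7 : (0 : ℝ) < p := by exact_mod_cast hp1
    linarith [Real.log_le_log h7 h5]
  have h4 : (∑ p ∈ PQ Q, θ p) * ‖T‖ = ‖((∑ p ∈ PQ Q, θ p : ℝ) : ℂ) * T‖ := by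
    rw [norm_mul, Complex.norm_real, Real.norm_eq_abs, abs_of_nonneg (sum_nonneg hθ0)]
  rw [h4, h2]
  exact (norm_add_le _ _).trans (by linarith)

theorem g2_le {N : ℕ} {F₁ F₂ : Gi → ℂ} (h₁ : Cm N F₁) (h₂ : Cm N F₂) (R : Gi → Gi → Prop)
    (e : Gi × Gi) : ‖g2 F₁ F₂ R e‖ ≤ 1 := by
  unfold g2
  split_ifs
  · rw [norm_mul, Complex.norm_eq_one_of_pow_eq_one (h₁.pow _) (by have := h₁.pos; omega),
      Complex.norm_eq_one_of_pow_eq_one (h₂.pow _) (by have := h₁.pos; omega), mul_one]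
  · rw [norm_zero]; exact zero_le_one

/-- the properties needed for large `Q` and `X` -/
def GoodQX (q : ℕ) (F₂ : Gi → ℂ) (s s₁ s₃ s₄ : ℝ) (K : ℕ) (κ E₀ ε' : ℝ) (Q : ℕ) (X : ℝ) : Prop :=
  2 * (K * Q : ℝ) ≤ X ∧
  (∀ b : Cq q, ∀ α : Gi → ℝ, (∀ z, |α z| ≤ 1) → (∀ z, α z ≠ 0 → s₁ * X < (nm z : ℝ)) →
      |∑ e ∈ good K κ Q X, ∑ v ∈ cone X e.1 e.2, ∑ w ∈ cw X s₃ s₄ e.1 e.2,
        α v * cl q (rep b) (fun z => (F₂ z).re) w * th Q (dt v w)| ≤ E₀ * X * Q) ∧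
  (∀ b : Cq q, ∀ α : Gi → ℝ, (∀ z, |α z| ≤ 1) → (∀ z, α z ≠ 0 → s₁ * X < (nm z : ℝ)) →
      |∑ e ∈ good K κ Q X, ∑ v ∈ cone X e.1 e.2, ∑ w ∈ cw X s₃ s₄ e.1 e.2,
        α v * cl q (rep b) (fun z => (F₂ z).im) w * th Q (dt v w)| ≤ E₀ * X * Q) ∧
  (∀ p ∈ PQ Q, ∀ π : Gi, nm π = p →
      (open scoped Classical in
      (((dedge 0 1 (X / p)).filter (fun e => 0 < ip e.1 e.2 ∧ s * (X / p) < (nm e.1 : ℝ) ∧
        s * (X / p) < (nm e.2 : ℝ) ∧ ¬ InG K κ Q X π e)).card : ℝ)) ≤ ε' * (X / p))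

theorem ev_ev {P : ℕ → ℝ → Prop} (h : ∃ Q₀ : ℕ, ∀ Q : ℕ, Q₀ ≤ Q → ∃ X₀ : ℝ, ∀ X : ℝ, X₀ ≤ X → P Q X) :
    ∀ᶠ Q : ℕ in atTop, ∀ᶠ X : ℝ in atTop, P Q X := by
  obtain ⟨Q₀, h⟩ := h
  filter_upwards [eventually_ge_atTop Q₀] with Q hQ
  obtain ⟨X₀, hX⟩ := h Q hQ
  filter_upwards [eventually_ge_atTop X₀] with X hX'
  exact hX X hX'

theorem goodQX {q : ℕ} [NeZero q] {F₂ : Gi → ℂ}
    (hBt : ∀ β : Gi, Bt (cl q β (fun z => (F₂ z).re)) ∧ Bt (cl q β (fun z => (F₂ z).im)))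
    {s s₁ s₃ s₄ : ℝ} (hs₁ : 0 < s₁) (hs₃ : 0 < s₃) (hs₃₄ : s₃ < s₄) (hs₄ : s₄ ≤ 1) {K : ℕ}
    (hK : 1 ≤ K) {κ : ℝ} (hκ : 0 < κ) {E₀ ε' : ℝ} (hE : 0 < E₀)
    (hL : ∃ Q₀ : ℕ, ∀ Q : ℕ, Q₀ ≤ Q → ∃ X₀ : ℝ, ∀ X : ℝ, X₀ ≤ X →
    ∀ p ∈ PQ Q, ∀ π : Gi, nm π = p →
    (open scoped Classical in
    (((dedge 0 1 (X / p)).filter (fun e => 0 < ip e.1 e.2 ∧ s * (X / p) < (nm e.1 : ℝ) ∧
      s * (X / p) < (nm e.2 : ℝ) ∧ ¬ InG K κ Q X π e)).card : ℝ)) ≤ ε' * (X / p)) :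
    ∃ Q₀ : ℕ, ∀ Q : ℕ, Q₀ ≤ Q → ∃ X₀ : ℝ, ∀ X : ℝ, X₀ ≤ X →
      GoodQX q F₂ s s₁ s₃ s₄ K κ E₀ ε' Q X := by
  have h1 : ∀ᶠ Q : ℕ in atTop, ∀ᶠ X : ℝ in atTop, 2 * (K * Q : ℝ) ≤ X :=
    Eventually.of_forall fun Q => eventually_ge_atTop _
  have h2 : ∀ᶠ Q : ℕ in atTop, ∀ b : Cq q, ∀ᶠ X : ℝ in atTop, ∀ α : Gi → ℝ, (∀ z, |α z| ≤ 1) →
      (∀ z, α z ≠ 0 → s₁ * X < (nm z : ℝ)) →
      |∑ e ∈ good K κ Q X, ∑ v ∈ cone X e.1 e.2, ∑ w ∈ cw X s₃ s₄ e.1 e.2,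
        α v * cl q (rep b) (fun z => (F₂ z).re) w * th Q (dt v w)| ≤ E₀ * X * Q :=
    eventually_all.2 fun b => ev_ev ((hBt (rep b)).1 K κ s₁ s₃ s₄ E₀ hK hκ hs₁ hs₃ hs₃₄ hs₄ hE)
  have h3 : ∀ᶠ Q : ℕ in atTop, ∀ b : Cq q, ∀ᶠ X : ℝ in atTop, ∀ α : Gi → ℝ, (∀ z, |α z| ≤ 1) →
      (∀ z, α z ≠ 0 → s₁ * X < (nm z : ℝ)) →
      |∑ e ∈ good K κ Q X, ∑ v ∈ cone X e.1 e.2, ∑ w ∈ cw X s₃ s₄ e.1 e.2,
        α v * cl q (rep b) (fun z => (F₂ z).im) w * th Q (dt v w)| ≤ E₀ * X * Q :=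
    eventually_all.2 fun b => ev_ev ((hBt (rep b)).2 K κ s₁ s₃ s₄ E₀ hK hκ hs₁ hs₃ hs₃₄ hs₄ hE)
  have h4 := ev_ev hL
  have h5 : ∀ᶠ Q : ℕ in atTop, ∀ᶠ X : ℝ in atTop, GoodQX q F₂ s s₁ s₃ s₄ K κ E₀ ε' Q X := by
    filter_upwards [h1, h2, h3, h4] with Q g1 g2 g3 g4
    filter_upwards [g1, eventually_all.2 g2, eventually_all.2 g3, g4] with X a1 a2 a3 a4
    exact ⟨a1, a2, a3, a4⟩
  obtain ⟨Q₀, hQ₀⟩ := eventually_atTop.1 h5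
  exact ⟨Q₀, fun Q hQ => eventually_atTop.1 (hQ₀ Q hQ)⟩

theorem mainx (hz : S_ZX) (hp : S_PERX) (hd : Pool.Agent.W78.EC.S_DCP) (hdil : S_DILX)
    (hl : Pool.Agent.W78.EC.S_LOSS) (hc : Pool.Agent.W78.EC.S_PCNT) :
    Pool.Agent.W251.EX.S_MAINX := by
  classical
  intro N₀' τ F₁ F₂ hPr q hq hBt R hR s₁ s₂ s₃ s₄ hs₁ hs₁₂ hs₂ hs₃ hs₃₄ hs₄ ε hε
  have : NeZero q := ⟨by omega⟩
  obtain ⟨c, _, hc0, Qc, hQc⟩ := hc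
  set g := g2 F₁ F₂ R with hg
  obtain ⟨C₁, hC₁⟩ := hdil g (g2_le hPr.cm₁ hPr.cm₂ R) s₁ s₂ s₃ s₄ hs₁ hs₁₂ hs₂ hs₃ hs₃₄ hs₄
  set C := |C₁| with hCdef
  have hC0 : 0 ≤ C := abs_nonneg _
  have hC : ∀ p N : ℕ, 1 ≤ p → 1 ≤ N →
      ‖∑ X ∈ Icc 1 N, (((p : ℝ) / (X : ℝ) ^ 2 : ℝ) : ℂ) * AG g s₁ s₂ s₃ s₄ ((X : ℝ) / p) -
        ∑ X ∈ Icc 1 N, ((1 / (X : ℝ) ^ 2 : ℝ) : ℂ) * AG g s₁ s₂ s₃ s₄ X‖ ≤
        C * (1 + Real.log p) := by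
    intro p N hp hN
    refine (hC₁ p N hp hN).trans (mul_le_mul_of_nonneg_right (le_abs_self _) ?_)
    have := Real.log_natCast_nonneg p
    linarith
  set s := min s₁ s₃ with hs
  have hs0 : 0 < s := lt_min hs₁ hs₃
  obtain ⟨K₀, hK₀⟩ := hl s (ε / 32) hs0 (by positivity)
  set K := max K₀ 1 with hKdef
  have hK : 1 ≤ K := le_max_right _ _
  obtain ⟨κ, hκ, hκ'⟩ := hK₀ K (le_max_left _ _)
  have hLL := hκ' κ hκ le_rfl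
  obtain ⟨B, hB⟩ := hz K κ hK hκ
  set m : ℝ := (Fintype.card (Cq q × Cq q) : ℝ) with hm
  have hm1 : 1 ≤ m := by
    rw [hm]
    exact_mod_cast Fintype.card_pos
  have hm0 : 0 < m := by linarith
  obtain ⟨QG, hQG⟩ := goodQX (F₂ := F₂) hBt hs₁ hs₃ hs₃₄ hs₄ hK hκ
    (E₀ := c * ε / (64 * m)) (by positivity) hLL
  set Q₁ := Qc + QG + q + (⌊(K : ℝ) / κ⌋₊ + 1) with hQ₁
  obtain ⟨Q₂, X₀, N₀, hD⟩ := hd (La N₀' q) K B (c * ε / (32 * m)) hK (by positivity) Q₁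
  -- thresholds
  have hXG : ∀ Q : ℕ, ∃ X₁ : ℝ, Q₁ ≤ Q → ∀ X : ℝ, X₁ ≤ X →
      GoodQX q F₂ s s₁ s₃ s₄ K κ (c * ε / (64 * m)) (ε / 32) Q X := by
    intro Q
    by_cases hQ : Q₁ ≤ Q
    · obtain ⟨X₁, hX₁⟩ := hQG Q (by omega)
      exact ⟨X₁, fun _ => hX₁⟩
    · exact ⟨0, fun h => absurd h hQ⟩
  choose XG hXG' using hXG
  have hpi : ∀ p : ℕ, ∃ πr : Gi × ℤ, p.Prime → p % 4 = 1 →
      nm πr.1 = p ∧ lat p πr.2 πr.1 ∧ (p : ℤ) ∣ πr.2 ^ 2 + 1 := by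
    intro p
    by_cases hp : p.Prime ∧ p % 4 = 1
    · obtain ⟨π, r, h⟩ := exists_pi hp.1 hp.2
      exact ⟨(π, r), fun _ _ => h⟩
    · exact ⟨(0, 0), fun ha hb => absurd ⟨ha, hb⟩ hp⟩
  choose πr hπr using hpi
  set X₁ := X₀ + ∑ Q ∈ Icc Q₁ Q₂, ⌈XG Q⌉₊ with hX₁
  have hX₁' : ∀ Q : ℕ, Q₁ ≤ Q → Q ≤ Q₂ → XG Q ≤ X₁ := by
    intro Q ha hb
    have h : ⌈XG Q⌉₊ ≤ X₁ := by
      have := single_le_sum (f := fun Q => ⌈XG Q⌉₊)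
        (fun _ _ => Nat.zero_le _) (mem_Icc.2 ⟨ha, hb⟩)
      omega
    have h' : (⌈XG Q⌉₊ : ℝ) ≤ X₁ := by exact_mod_cast h
    exact (Nat.le_ceil (XG Q)).trans h'
  set M : ℝ := ∑ X ∈ Icc 1 X₁, 1 / (X : ℝ) ^ 2 *
    ∑ Q ∈ Icc Q₁ Q₂, ‖SX g s₁ s₂ s₃ s₄ Q X‖ with hM
  have hM0 : 0 ≤ M := sum_nonneg fun X _ => mul_nonneg (by positivity)
    (sum_nonneg fun _ _ => norm_nonneg _)
  set Kst : ℝ := C * (1 + Real.log (2 * Q₂)) + M / c + ε / 8 with hKst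
  refine ⟨max (max N₀ 1) ⌈Real.exp (Kst / (ε / 2))⌉₊, fun N hN => ?_⟩
  have hN0 : N₀ ≤ N := le_trans (le_trans (le_max_left _ _) (le_max_left _ _)) hN
  have hN1 : 1 ≤ N := le_trans (le_trans (le_max_right _ _) (le_max_left _ _)) hN
  have hNe : Kst / (ε / 2) ≤ Real.log N := by
    have hNR : (0 : ℝ) < N := by exact_mod_cast hN1
    rw [Real.le_log_iff_exp_le hNR]
    have := le_trans (le_max_right _ _) hN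
    exact (Nat.le_ceil _).trans (by exact_mod_cast this)
  have hlogN : 0 ≤ Real.log N := Real.log_natCast_nonneg N
  set lab : ℕ → Gi → La N₀' q := fun X => labX N₀' q s₁ s₂ s₃ s₄ X F₁ F₂ with hlab
  obtain ⟨Q, hQ1, hQ2, hζ⟩ := hD N hN0 lab
  have hQpos : 1 ≤ Q := by omega
  have hQR : (1 : ℝ) ≤ Q := by exact_mod_cast hQpos
  have hKQ : (K : ℝ) / κ < Q := by
    have h := Nat.lt_floor_add_one ((K : ℝ) / κ)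
    have h' : ⌊(K : ℝ) / κ⌋₊ + 1 ≤ Q := by omega
    have h'' : ((⌊(K : ℝ) / κ⌋₊ : ℝ) + 1) ≤ Q := by exact_mod_cast h'
    linarith
  have hZ := fun ab : Cq q × Cq q => hB Q hKQ (La N₀' q) (D1 N₀' ab.1) (D2 N₀' ab.2)
    (D1_le hPr.cm₁.pos ab.1) (D2_le hPr.cm₁.pos ab.2) (fun p => (πr p).2)
  choose ζ₁ ζ₂ hζB hζE using hZ
  have hΘ := (hQc Q (by omega)).2.2.1
  set Θ := ∑ p ∈ PQ Q, Real.log p with hΘdef
  set Θ' := ∑ p ∈ PQ Q, Real.log p * (((p : ℝ) + 1) / p) with hΘ'def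
  have hΘ0 : 0 ≤ Θ := sum_nonneg fun p hp => log_nonneg_PQ hp
  have hΘΘ' : Θ ≤ Θ' := by
    refine sum_le_sum fun p hp => ?_
    have hp0 : (0 : ℝ) < p := by exact_mod_cast (PQ_mem hp).2.2.1.pos
    refine le_mul_of_one_le_right (log_nonneg_PQ hp) ?_
    rw [le_div_iff₀ hp0]
    linarith
  set DX : ℕ → ℝ := fun X => ∑ ab ∈ PR q R, Dec K Q X (lab X) (ζ₁ ab) (ζ₂ ab) with hDX
  have hDX0 : ∀ X, 0 ≤ DX X := fun X => sum_nonneg fun _ _ => Dec_nonneg _ _ _ _ _ _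
  have hζ'' : ∑ X ∈ Ioc X₀ N, 1 / (X : ℝ) ^ 2 * DX X ≤ c * ε / 16 * Real.log N := by
    have h1 := fun ab : Cq q × Cq q => hζ (ζ₁ ab) (fun p T y => (hζB ab p T y).1)
    have h2 := fun ab : Cq q × Cq q => hζ (ζ₂ ab) (fun p T y => (hζB ab p T y).2)
    have h3 : ∑ X ∈ Ioc X₀ N, 1 / (X : ℝ) ^ 2 * DX X = ∑ ab ∈ PR q R,
        ((∑ X ∈ Ioc X₀ N, 1 / (X : ℝ) ^ 2 * ∑ e ∈ edge 0 1 ((X : ℝ) / (K * Q)),
          |∑ p ∈ PQ Q, Real.log p * (ζ₁ ab p (TT (lab X) X e) (res p e) -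
            av p (ζ₁ ab p) (TT (lab X) X e))|) +
        (∑ X ∈ Ioc X₀ N, 1 / (X : ℝ) ^ 2 * ∑ e ∈ edge 0 1 ((X : ℝ) / (K * Q)),
          |∑ p ∈ PQ Q, Real.log p * (ζ₂ ab p (TT (lab X) X e) (res p e) -
            av p (ζ₂ ab p) (TT (lab X) X e))|)) := by
      have h4 : ∀ X ∈ Ioc X₀ N, 1 / (X : ℝ) ^ 2 * DX X = ∑ ab ∈ PR q R,
        (1 / (X : ℝ) ^ 2 * (∑ e ∈ edge 0 1 ((X : ℝ) / (K * Q)),
          |∑ p ∈ PQ Q, Real.log p * (ζ₁ ab p (TT (lab X) X e) (res p e) -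
            av p (ζ₁ ab p) (TT (lab X) X e))|) +
        1 / (X : ℝ) ^ 2 * (∑ e ∈ edge 0 1 ((X : ℝ) / (K * Q)),
          |∑ p ∈ PQ Q, Real.log p * (ζ₂ ab p (TT (lab X) X e) (res p e) -
            av p (ζ₂ ab p) (TT (lab X) X e))|)) := by
        intro X _
        simp only [hDX]
        rw [mul_sum]
        refine sum_congr rfl fun ab _ => ?_
        unfold Dec
        rw [sum_add_distrib, mul_add]
      rw [sum_congr rfl h4, sum_comm]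
      refine sum_congr rfl fun ab _ => ?_
      rw [sum_add_distrib]
    rw [h3]
    calc _ ≤ ∑ ab ∈ PR q R, (c * ε / (32 * m) * Real.log N + c * ε / (32 * m) * Real.log N) :=
          sum_le_sum fun ab _ => add_le_add (h1 ab) (h2 ab)
      _ = (PR q R).card * (c * ε / (16 * m) * Real.log N) := by
          rw [sum_const, nsmul_eq_mul]
          ring
      _ ≤ m * (c * ε / (16 * m) * Real.log N) :=
          mul_le_mul_of_nonneg_right (PR_card R) (by positivity)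
      _ = c * ε / 16 * Real.log N := by
          field_simp
  -- large X
  have hlarge : ∀ X : ℕ, X₁ < X → ‖SX g s₁ s₂ s₃ s₄ Q X‖ ≤
      2 * Q * DX X + (c * ε / 16 * X * Q + 2 * (ε / 32) * X * Θ) := by
    intro X hX
    have hXR : (X₁ : ℝ) ≤ X := by exact_mod_cast hX.le
    obtain ⟨e1, e2, e3, e4⟩ := hXG' Q hQ1 X ((hX₁' Q hQ1 hQ2).trans hXR)
    have hX0 : (0 : ℝ) ≤ X := Nat.cast_nonneg _
    have h1 := per_X hp hPr hR (s := s) (s₂ := s₂) (s₄ := s₄) hs₁ hs₃ (min_le_left _ _)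
      (min_le_right _ _) hK hκ hQpos (by omega) e1 (fun p => (πr p).1) (fun p => (πr p).2)
      (fun p hp => hπr p (PQ_mem hp).2.2.1 (PQ_mem hp).2.2.2) ζ₁ ζ₂ hζE
      (E := c * ε / (64 * m) * X * Q)
      (fun ab => bil hPr.cm₁ hPr.cm₂ ab.1 ab.2 (e2 ab.2) (e3 ab.2)) (by positivity) e4
    refine h1.trans (add_le_add le_rfl (add_le_add ?_ le_rfl))
    calc ((PR q R).card : ℝ) * (4 * (c * ε / (64 * m) * X * Q)) ≤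
          m * (4 * (c * ε / (64 * m) * X * Q)) :=
          mul_le_mul_of_nonneg_right (PR_card R) (by positivity)
      _ = c * ε / 16 * X * Q := by
          field_simp
          ring
  -- the sum over X
  have hsum : ‖∑ X ∈ Icc 1 N, ((1 / (X : ℝ) ^ 2 : ℝ) : ℂ) * SX g s₁ s₂ s₃ s₄ Q X‖ ≤
      M + 2 * Q * (c * ε / 16 * Real.log N) +
        (c * ε / 16 * Q + 2 * (ε / 32) * Θ) * (1 + Real.log N) := by
    have h := sum_split (fun X => ‖SX g s₁ s₂ s₃ s₄ Q X‖) DX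
      (fun X => ∑ Q ∈ Icc Q₁ Q₂, ‖SX g s₁ s₂ s₃ s₄ Q X‖) (X₀ := X₀) (X₁ := X₁) (N := N)
      (a := 2 * Q) (b := c * ε / 16 * Q + 2 * (ε / 32) * Θ) (Λ := c * ε / 16 * Real.log N)
      (fun X => by
        rw [abs_norm]
        exact single_le_sum (f := fun Q => ‖SX g s₁ s₂ s₃ s₄ Q X‖)
          (fun _ _ => norm_nonneg _) (mem_Icc.2 ⟨hQ1, hQ2⟩))
      (fun X hX => by
        rw [abs_norm]
        exact (hlarge X hX).trans (le_of_eq (by ring))) hDX0 (by positivity)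
      (by positivity) (Nat.le_add_right _ _) hζ''
    refine le_trans ((norm_sum_le _ _).trans ?_) ((le_abs_self _).trans h)
    refine le_of_eq (sum_congr rfl fun X _ => ?_)
    rw [norm_mul, Complex.norm_real, Real.norm_of_nonneg (by positivity)]
  have hmain := avg_primes (g := g) (s₁ := s₁) (s₂ := s₂) (s₃ := s₃) (s₄ := s₄) hC0 hQ2 hN1 hC
  rw [← hΘ'def] at hmain
  set T := ∑ X ∈ Icc 1 N, ((1 / (X : ℝ) ^ 2 : ℝ) : ℂ) * AG g s₁ s₂ s₃ s₄ X with hT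
  have hΘ'c : c * Q ≤ Θ' := hΘ.trans hΘΘ'
  have hΘ'pos : 0 < Θ' := lt_of_lt_of_le (by positivity) hΘ'c
  have b1 : M ≤ Θ' * (M / c) := by
    have : c ≤ Θ' := le_trans (le_mul_of_one_le_right hc0.le hQR) hΘ'c
    calc M = c * (M / c) := by field_simp
      _ ≤ Θ' * (M / c) := mul_le_mul_of_nonneg_right this (by positivity)
  have b2 : 2 * Q * (c * ε / 16 * Real.log N) ≤ Θ' * (ε / 8 * Real.log N) := by
    calc 2 * Q * (c * ε / 16 * Real.log N) = c * Q * (ε / 8 * Real.log N) := by ring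
      _ ≤ Θ' * (ε / 8 * Real.log N) := mul_le_mul_of_nonneg_right hΘ'c (by positivity)
  have b3 : (c * ε / 16 * Q + 2 * (ε / 32) * Θ) * (1 + Real.log N) ≤
      Θ' * (ε / 8 * (1 + Real.log N)) := by
    calc (c * ε / 16 * Q + 2 * (ε / 32) * Θ) * (1 + Real.log N) =
        (c * Q + Θ) * (ε / 16 * (1 + Real.log N)) := by ring
      _ ≤ (Θ' + Θ') * (ε / 16 * (1 + Real.log N)) :=
          mul_le_mul_of_nonneg_right (by linarith) (by positivity)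
      _ = Θ' * (ε / 8 * (1 + Real.log N)) := by ring
  have b4 : Θ' * ‖T‖ ≤ Θ' * (Kst + ε / 4 * Real.log N) := by
    calc Θ' * ‖T‖ ≤ Θ' * (C * (1 + Real.log (2 * Q₂))) + Θ' * (M / c) +
        Θ' * (ε / 8 * Real.log N) + Θ' * (ε / 8 * (1 + Real.log N)) := by linarith
      _ = Θ' * (Kst + ε / 4 * Real.log N) := by rw [hKst]; ring
  have b5 : ‖T‖ ≤ Kst + ε / 4 * Real.log N := le_of_mul_le_mul_left b4 hΘ'pos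
  have b6 : Kst ≤ ε / 2 * Real.log N := by
    rw [div_le_iff₀ (by positivity)] at hNe
    linarith
  have b7 : 0 ≤ ε * Real.log N := by positivity
  linarith

end Pool.Agent.W370.EX
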