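import Pool.Agent.W251.EX.Defs
import Pool.Agent.W78.EC.Fix5

/-!
Project EX: labels, dilation, and the estimate for fixed `X`.
-/

set_option autoImplicit false

namespace Pool.Agent.W370.EX

open Finset Filter
open Pool.Agent.W78.GA (Qd nm prim dt ip lat pball ball edge dedge)
open Pool.Agent.W78.EC (Gi cone cw PQ th good Tr TT res av InG S_DCP S_LOSS S_PCNT)
open Pool.Agent.W251.GX (Cm)
open Pool.Agent.W251.EX

/-- the values -/
noncomputable def VN (N : ℕ) : Finset ℂ := insert 0 (Polynomial.nthRootsFinset N (1 : ℂ))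

theorem mem_VN {N : ℕ} (hN : 1 ≤ N) {x : ℂ} : x ∈ VN N ↔ x = 0 ∨ x ^ N = 1 := by
  unfold VN
  rw [mem_insert, Polynomial.mem_nthRootsFinset (by omega)]

theorem norm_VN {N : ℕ} (hN : 1 ≤ N) {x : ℂ} (hx : x ∈ VN N) : ‖x‖ ≤ 1 := by
  rcases (mem_VN hN).1 hx with h | h
  · rw [h, norm_zero]; exact zero_le_one
  · exact (Complex.norm_eq_one_of_pow_eq_one h (by omega)).le

open scoped Classical in
/-- encoding of the values -/
noncomputable def enc (N : ℕ) (x : ℂ) : {x // x ∈ VN N} :=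
  if h : x ∈ VN N then ⟨x, h⟩ else ⟨0, mem_insert_self _ _⟩

theorem enc_val {N : ℕ} {x : ℂ} (h : x ∈ VN N) : ((enc N x : {x // x ∈ VN N}) : ℂ) = x := by
  unfold enc
  rw [dif_pos h]

/-- residue classes -/
abbrev Cq (q : ℕ) := ZMod q × ZMod q

/-- the labels -/
abbrev La (N q : ℕ) := {x // x ∈ VN N} × {x // x ∈ VN N} × Cq q

/-- the residue class -/
def cz (q : ℕ) (z : Gi) : Cq q := ((z.re : ZMod q), (z.im : ZMod q))

/-- representatives of the residue classes -/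
def rep {q : ℕ} (b : Cq q) : Gi := ⟨(b.1.val : ℤ), (b.2.val : ℤ)⟩

theorem cz_rep {q : ℕ} [NeZero q] (b : Cq q) : cz q (rep b) = b := by
  unfold cz rep
  simp

theorem cz_eq {q : ℕ} {z w : Gi} : cz q z = cz q w ↔
    (q : ℤ) ∣ z.re - w.re ∧ (q : ℤ) ∣ z.im - w.im := by
  unfold cz
  rw [Prod.mk.injEq, eq_comm, ZMod.intCast_eq_intCast_iff_dvd_sub, eq_comm (a := (z.im : ZMod q)),
    ZMod.intCast_eq_intCast_iff_dvd_sub]

theorem cl_eq {q : ℕ} [NeZero q] (b : Cq q) (A : Gi → ℝ) (z : Gi) :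
    cl q (rep b) A z = if cz q z = b then A z else 0 := by
  unfold cl
  refine if_congr ?_ rfl rfl
  rw [← cz_eq, cz_rep]

theorem R_iff {q : ℕ} [NeZero q] {R : Gi → Gi → Prop} (hR : Rel q R) (v w : Gi) :
    R v w ↔ R (rep (cz q v)) (rep (cz q w)) := by
  have h1 := cz_eq.1 (cz_rep (cz q v)).symm
  have h2 := cz_eq.1 (cz_rep (cz q w)).symm
  exact hR.per v w _ _ h1.1 h1.2 h2.1 h2.2

open scoped Classical in
/-- a function in a window -/
noncomputable def win (s t X : ℝ) (F : Gi → ℂ) (z : Gi) : ℂ :=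
  if s * X < (nm z : ℝ) ∧ (nm z : ℝ) ≤ t * X then F z else 0

theorem win_mem {N : ℕ} {F : Gi → ℂ} (hF : Cm N F) (s t X : ℝ) (z : Gi) :
    win s t X F z ∈ VN N := by
  rw [mem_VN hF.pos]
  unfold win
  split_ifs
  · right; exact hF.pow z
  · left; rfl

theorem win_le {N : ℕ} {F : Gi → ℂ} (hF : Cm N F) (s t X : ℝ) (z : Gi) :
    ‖win s t X F z‖ ≤ 1 := norm_VN hF.pos (win_mem hF s t X z)

/-- the labelling -/
noncomputable def labX (N q : ℕ) (s₁ s₂ s₃ s₄ X : ℝ) (F₁ F₂ : Gi → ℂ) (z : Gi) : La N q :=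
  (enc N (win s₁ s₂ X F₁ z), enc N (win s₃ s₄ X F₂ z), cz q z)

open scoped Classical in
/-- first function of the label -/
noncomputable def D1 (N : ℕ) {q : ℕ} (a : Cq q) (x : La N q) : ℂ :=
  if x.2.2 = a then (x.1 : ℂ) else 0

open scoped Classical in
/-- second function of the label -/
noncomputable def D2 (N : ℕ) {q : ℕ} (b : Cq q) (x : La N q) : ℂ :=
  if x.2.2 = b then (x.2.1 : ℂ) else 0

theorem D1_le {N q : ℕ} (hN : 1 ≤ N) (a : Cq q) (x : La N q) : ‖D1 N a x‖ ≤ 1 := by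
  unfold D1
  split_ifs
  · exact norm_VN hN x.1.2
  · rw [norm_zero]; exact zero_le_one

theorem D2_le {N q : ℕ} (hN : 1 ≤ N) (a : Cq q) (x : La N q) : ‖D2 N a x‖ ≤ 1 := by
  unfold D2
  split_ifs
  · exact norm_VN hN x.2.1.2
  · rw [norm_zero]; exact zero_le_one

open scoped Classical in
theorem D1_lab {N q : ℕ} {s₁ s₂ s₃ s₄ X : ℝ} {F₁ F₂ : Gi → ℂ} (h : Cm N F₁) (a : Cq q) (z : Gi) :
    D1 N a (labX N q s₁ s₂ s₃ s₄ X F₁ F₂ z) = if cz q z = a then win s₁ s₂ X F₁ z else 0 := by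
  unfold D1 labX
  simp only [enc_val (win_mem h s₁ s₂ X z)]

open scoped Classical in
theorem D2_lab {N q : ℕ} {s₁ s₂ s₃ s₄ X : ℝ} {F₁ F₂ : Gi → ℂ} (h : Cm N F₂) (a : Cq q) (z : Gi) :
    D2 N a (labX N q s₁ s₂ s₃ s₄ X F₁ F₂ z) = if cz q z = a then win s₃ s₄ X F₂ z else 0 := by
  unfold D2 labX
  simp only [enc_val (win_mem h s₃ s₄ X z)]

open scoped Classical in
/-- the pairs of classes with `R` -/
noncomputable def PR (q : ℕ) [NeZero q] (R : Gi → Gi → Prop) : Finset (Cq q × Cq q) :=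
  univ.filter (fun ab => R (rep ab.1) (rep ab.2))

open scoped Classical in
theorem R_sum {q : ℕ} [NeZero q] {R : Gi → Gi → Prop} (hR : Rel q R) (U W : Gi → ℂ) (v w : Gi) :
    (if R v w then U v * W w else 0) = ∑ ab ∈ PR q R,
      (if cz q v = ab.1 then U v else 0) * (if cz q w = ab.2 then W w else 0) := by
  unfold PR
  rw [sum_filter, sum_eq_single (cz q v, cz q w)]
  · rw [if_pos rfl, if_pos rfl]
    exact if_congr (R_iff hR v w) rfl rfl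
  · intro ab _ hab
    by_cases h1 : cz q v = ab.1
    · by_cases h2 : cz q w = ab.2
      · exact absurd (Prod.ext h1.symm h2.symm) hab
      · rw [if_neg h2, mul_zero, ite_self]
    · rw [if_neg h1, zero_mul, ite_self]
  · intro h
    exact absurd (mem_univ _) h

theorem PR_card {q : ℕ} [NeZero q] (R : Gi → Gi → Prop) :
    ((PR q R).card : ℝ) ≤ (Fintype.card (Cq q × Cq q) : ℝ) := by
  exact_mod_cast card_le_univ _

/-! ### dilation -/

theorem win_mul {N : ℕ} {F : Gi → ℂ} (hF : Cm N F) {p : ℕ} (hp : p.Prime) {π : Gi} (hπ : nm π = p)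
    {s t X : ℝ} (h0 : 0 ≤ s * X) (z : Gi) :
    win s t X F (π * z) = F π * win s t (X / p) F z := by
  have hp0 : (0 : ℝ) < p := by exact_mod_cast hp.pos
  have h1 : (nm (π * z) : ℝ) = p * nm z := by
    rw [Pool.Agent.W78.GA.nm_mul, hπ]
    push_cast
    ring
  have h2 : s * X < (nm (π * z) : ℝ) ↔ s * (X / p) < (nm z : ℝ) := by
    rw [h1, ← mul_div_assoc, div_lt_iff₀ hp0, mul_comm (p : ℝ)]
  have h3 : (nm (π * z) : ℝ) ≤ t * X ↔ (nm z : ℝ) ≤ t * (X / p) := by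
    rw [h1, ← mul_div_assoc, le_div_iff₀ hp0, mul_comm (p : ℝ)]
  unfold win
  by_cases hc : s * (X / p) < (nm z : ℝ) ∧ (nm z : ℝ) ≤ t * (X / p)
  · rw [if_pos (by rw [h2, h3]; exact hc), if_pos hc]
    have hz : z ≠ 0 := by
      rintro rfl
      have := hc.1
      rw [Pool.Agent.W78.GA.nm_zero] at this
      have h4 : 0 ≤ s * (X / p) := by
        rw [← mul_div_assoc]
        positivity
      push_cast at this
      linarith
    have hπ0 : π ≠ 0 := by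
      rintro rfl
      rw [Pool.Agent.W78.GA.nm_zero] at hπ
      exact hp.ne_zero hπ.symm
    exact hF.mul π z hπ0 hz
  · rw [if_neg (by rw [h2, h3]; exact hc), if_neg hc, mul_zero]

theorem tau_norm {N : ℕ} {τ : ℂ} {F₁ F₂ : Gi → ℂ} (h : Pr N τ F₁ F₂) : ‖τ‖ = 1 := by
  have h2 : nm (⟨1, 1⟩ : Gi) = 2 := by
    unfold Pool.Agent.W78.GA.nm
    norm_num
  have h3 := h.tw ⟨1, 1⟩ (by rw [h2]; exact Nat.prime_two)
  rw [← h3, norm_mul, Complex.norm_eq_one_of_pow_eq_one (h.cm₁.pow _) (by have := h.cm₁.pos; omega),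
    Complex.norm_eq_one_of_pow_eq_one (h.cm₂.pow _) (by have := h.cm₁.pos; omega), mul_one]

open scoped Classical in
/-- the sum `AG` in terms of the dilated functions -/
theorem AG_eq {N : ℕ} {τ : ℂ} {F₁ F₂ : Gi → ℂ} (h : Pr N τ F₁ F₂) {q : ℕ} {R : Gi → Gi → Prop}
    (hR : Rel q R) {p : ℕ} (hp : p.Prime) (hpq : Nat.Coprime p q) {π : Gi} (hπ : nm π = p)
    {s₁ s₂ s₃ s₄ X : ℝ} (h0 : 0 ≤ s₁ * X) (h0' : 0 ≤ s₃ * X) :
    τ * AG (g2 F₁ F₂ R) s₁ s₂ s₃ s₄ (X / p) =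
      ∑ e ∈ (dedge 0 1 (X / p)).filter (fun e => 0 < ip e.1 e.2),
        (if R (π * e.1) (π * e.2) then
          win s₁ s₂ X F₁ (π * e.1) * win s₃ s₄ X F₂ (π * e.2) else 0) := by
  have hAA : AG (g2 F₁ F₂ R) s₁ s₂ s₃ s₄ (X / p) = ∑ e ∈ ((dedge 0 1 (X / p)).filter
      (fun e => 0 < ip e.1 e.2)).filter (fun e =>
        s₁ * (X / p) < (nm e.1 : ℝ) ∧ (nm e.1 : ℝ) ≤ s₂ * (X / p) ∧ s₃ * (X / p) < (nm e.2 : ℝ) ∧
        (nm e.2 : ℝ) ≤ s₄ * (X / p)), g2 F₁ F₂ R e := by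
    unfold AG
    rw [filter_filter]
  rw [hAA, sum_filter, mul_sum]
  refine sum_congr rfl fun e _ => ?_
  have hRR : R (π * e.1) (π * e.2) ↔ R e.1 e.2 := hR.dil π e.1 e.2 (by rw [hπ]; exact hpq)
  have htw : F₁ π * F₂ π = τ := h.tw π (by rw [hπ]; exact hp)
  rw [win_mul h.cm₁ hp hπ h0, win_mul h.cm₂ hp hπ h0']
  unfold g2 win
  by_cases hr : R e.1 e.2
  · rw [if_pos hr, if_pos (hRR.2 hr)]
    by_cases h1 : s₁ * (X / p) < (nm e.1 : ℝ) ∧ (nm e.1 : ℝ) ≤ s₂ * (X / p) <;>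
    by_cases h2 : s₃ * (X / p) < (nm e.2 : ℝ) ∧ (nm e.2 : ℝ) ≤ s₄ * (X / p)
    · rw [if_pos ⟨h1.1, h1.2, h2.1, h2.2⟩, if_pos h1, if_pos h2]
      linear_combination (-(F₁ e.1 * F₂ e.2)) * htw
    · rw [if_neg (fun h => h2 ⟨h.2.2.1, h.2.2.2⟩), if_neg h2]
      simp
    · rw [if_neg (fun h => h1 ⟨h.1, h.2.1⟩), if_neg h1]
      simp
    · rw [if_neg (fun h => h1 ⟨h.1, h.2.1⟩), if_neg h1]
      simp
  · rw [if_neg hr, if_neg (fun h => hr (hRR.1 h)), ite_self, mul_zero]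

open scoped Classical in
/-- few pairs are lost -/
theorem AG_split {N : ℕ} {τ : ℂ} {F₁ F₂ : Gi → ℂ} (h : Pr N τ F₁ F₂) {q : ℕ} [NeZero q]
    {R : Gi → Gi → Prop}
    (hR : Rel q R) {p : ℕ} (hp : p.Prime) (hpq : Nat.Coprime p q) {π : Gi} (hπ : nm π = p)
    {s s₁ s₂ s₃ s₄ X : ℝ} (h0 : 0 ≤ s₁ * X) (h0' : 0 ≤ s₃ * X) (hs1 : s * X ≤ s₁ * X)
    (hs3 : s * X ≤ s₃ * X) {K : ℕ} {κ : ℝ} {Q : ℕ} {δ : ℝ}
    (hG : ∀ e, InG K κ Q X π e → 0 < ip e.1 e.2)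
    (hL : (((dedge 0 1 (X / p)).filter (fun e => 0 < ip e.1 e.2 ∧ s * (X / p) < (nm e.1 : ℝ) ∧
      s * (X / p) < (nm e.2 : ℝ) ∧ ¬ InG K κ Q X π e)).card : ℝ) ≤ δ) :
    ‖τ * AG (g2 F₁ F₂ R) s₁ s₂ s₃ s₄ (X / p) -
      ∑ ab ∈ PR q R, ∑ e ∈ (dedge 0 1 (X / p)).filter (InG K κ Q X π),
        D1 N ab.1 (labX N q s₁ s₂ s₃ s₄ X F₁ F₂ (π * e.1)) *
          D2 N ab.2 (labX N q s₁ s₂ s₃ s₄ X F₁ F₂ (π * e.2))‖ ≤ δ := by
  have hp0 : (0 : ℝ) < p := by exact_mod_cast hp.pos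
  have hII : (dedge 0 1 (X / p)).filter (InG K κ Q X π) =
      ((dedge 0 1 (X / p)).filter (fun e => 0 < ip e.1 e.2)).filter (InG K κ Q X π) := by
    rw [filter_filter]
    exact filter_congr fun e _ => ⟨fun h => ⟨hG e h, h⟩, fun h => h.2⟩
  set f : Gi × Gi → ℂ := fun e => if R (π * e.1) (π * e.2) then
          win s₁ s₂ X F₁ (π * e.1) * win s₃ s₄ X F₂ (π * e.2) else 0 with hf
  have hsum : ∑ ab ∈ PR q R, ∑ e ∈ (dedge 0 1 (X / p)).filter (InG K κ Q X π),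
        D1 N ab.1 (labX N q s₁ s₂ s₃ s₄ X F₁ F₂ (π * e.1)) *
          D2 N ab.2 (labX N q s₁ s₂ s₃ s₄ X F₁ F₂ (π * e.2)) =
      ∑ e ∈ (dedge 0 1 (X / p)).filter (InG K κ Q X π), f e := by
    rw [sum_comm]
    refine sum_congr rfl fun e _ => ?_
    rw [hf]
    simp only
    rw [R_sum hR]
    refine sum_congr rfl fun ab _ => ?_
    rw [D1_lab h.cm₁, D2_lab h.cm₂]
  rw [hsum, hII, AG_eq h hR hp hpq hπ h0 h0',
    ← sum_filter_add_sum_filter_not ((dedge 0 1 (X / p)).filter (fun e => 0 < ip e.1 e.2))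
      (InG K κ Q X π), add_sub_cancel_left]
  refine (norm_sum_le _ _).trans (le_trans ?_ hL)
  have h1 : ∀ e ∈ ((dedge 0 1 (X / p)).filter (fun e => 0 < ip e.1 e.2)).filter
      (fun e => ¬ InG K κ Q X π e),
      ‖f e‖ ≤ if s * (X / p) < (nm e.1 : ℝ) ∧ s * (X / p) < (nm e.2 : ℝ) then (1 : ℝ) else 0 := by
    intro e _
    rw [hf]
    simp only
    split_ifs with hr hc hc
    · rw [norm_mul]
      exact mul_le_one₀ (win_le h.cm₁ _ _ _ _) (norm_nonneg _) (win_le h.cm₂ _ _ _ _)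
    · rw [win_mul h.cm₁ hp hπ h0, win_mul h.cm₂ hp hπ h0']
      have ha : s * (X / p) ≤ s₁ * (X / p) := by
        rw [← mul_div_assoc, ← mul_div_assoc]
        exact div_le_div_of_nonneg_right hs1 hp0.le
      have hb : s * (X / p) ≤ s₃ * (X / p) := by
        rw [← mul_div_assoc, ← mul_div_assoc]
        exact div_le_div_of_nonneg_right hs3 hp0.le
      unfold win
      by_cases h2 : s₁ * (X / p) < (nm e.1 : ℝ) ∧ (nm e.1 : ℝ) ≤ s₂ * (X / p)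
      · have h3 : ¬ (s₃ * (X / p) < (nm e.2 : ℝ) ∧ (nm e.2 : ℝ) ≤ s₄ * (X / p)) := by
          intro h3
          exact hc ⟨by linarith [h2.1], by linarith [h3.1]⟩
        rw [if_neg h3]
        simp
      · rw [if_neg h2]
        simp
    · rw [norm_zero]; exact zero_le_one
    · rw [norm_zero]
  refine (sum_le_sum h1).trans ?_
  rw [sum_boole, filter_filter, filter_filter]
  refine le_of_eq ?_
  congr 2
  refine filter_congr fun e _ => ?_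
  tauto

/-! ### the bilinear term -/

theorem norm_le_four {a b c d E : ℝ} (ha : |a| ≤ E) (hb : |b| ≤ E) (hc : |c| ≤ E) (hd : |d| ≤ E) :
    ‖(((a - b : ℝ)) : ℂ) + Complex.I * (((c + d : ℝ)) : ℂ)‖ ≤ 4 * E := by
  refine (norm_add_le _ _).trans ?_
  rw [norm_mul, Complex.norm_I, one_mul, Complex.norm_real, Complex.norm_real, Real.norm_eq_abs,
    Real.norm_eq_abs]
  have h1 := abs_sub a b
  have h2 := abs_add_le c d
  linarith

open scoped Classical in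
theorem bil {N : ℕ} {F₁ F₂ : Gi → ℂ} (hF₁ : Cm N F₁) (hF₂ : Cm N F₂) {q : ℕ} [NeZero q]
    {s₁ s₂ s₃ s₄ X : ℝ} {K : ℕ} {κ : ℝ} {Q : ℕ} {E : ℝ} (a b : Cq q)
    (hre : ∀ α : Gi → ℝ, (∀ z, |α z| ≤ 1) → (∀ z, α z ≠ 0 → s₁ * X < (nm z : ℝ)) →
      |∑ e ∈ good K κ Q X, ∑ v ∈ cone X e.1 e.2, ∑ w ∈ cw X s₃ s₄ e.1 e.2,
        α v * cl q (rep b) (fun z => (F₂ z).re) w * th Q (dt v w)| ≤ E)
    (him : ∀ α : Gi → ℝ, (∀ z, |α z| ≤ 1) → (∀ z, α z ≠ 0 → s₁ * X < (nm z : ℝ)) →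
      |∑ e ∈ good K κ Q X, ∑ v ∈ cone X e.1 e.2, ∑ w ∈ cw X s₃ s₄ e.1 e.2,
        α v * cl q (rep b) (fun z => (F₂ z).im) w * th Q (dt v w)| ≤ E) :
    ‖∑ e ∈ good K κ Q X, ∑ v ∈ cone X e.1 e.2, ∑ w ∈ cone X e.1 e.2,
      D1 N a (labX N q s₁ s₂ s₃ s₄ X F₁ F₂ v) * D2 N b (labX N q s₁ s₂ s₃ s₄ X F₁ F₂ w) *
        (th Q (dt v w) : ℂ)‖ ≤ 4 * E := by
  set u : Gi → ℂ := fun v => D1 N a (labX N q s₁ s₂ s₃ s₄ X F₁ F₂ v) with hu
  have hu1 : ∀ v, ‖u v‖ ≤ 1 := fun v => D1_le hF₁.pos a _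
  have hu0 : ∀ v, u v ≠ 0 → s₁ * X < (nm v : ℝ) := by
    intro v hv
    by_contra hcon
    apply hv
    rw [hu]
    simp only
    rw [D1_lab hF₁]
    have hw0 : win s₁ s₂ X F₁ v = 0 := by
      unfold win
      rw [if_neg (fun h => hcon h.1)]
    rw [hw0, ite_self]
  have hr1 : ∀ v, |(u v).re| ≤ 1 := fun v => (Complex.abs_re_le_norm _).trans (hu1 v)
  have hi1 : ∀ v, |(u v).im| ≤ 1 := fun v => (Complex.abs_im_le_norm _).trans (hu1 v)
  have hr0 : ∀ v, (u v).re ≠ 0 → s₁ * X < (nm v : ℝ) := fun v hv => hu0 v (by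
    intro h
    apply hv
    rw [h, Complex.zero_re])
  have hi0 : ∀ v, (u v).im ≠ 0 → s₁ * X < (nm v : ℝ) := fun v hv => hu0 v (by
    intro h
    apply hv
    rw [h, Complex.zero_im])
  have a1 := hre (fun v => (u v).re) hr1 hr0
  have a2 := him (fun v => (u v).im) hi1 hi0
  have a3 := him (fun v => (u v).re) hr1 hr0
  have a4 := hre (fun v => (u v).im) hi1 hi0
  refine le_trans (le_of_eq ?_) (norm_le_four a1 a2 a3 a4)
  congr 1
  have hw : ∀ (e : Gi × Gi) (v : Gi), ∑ w ∈ cone X e.1 e.2,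
      u v * D2 N b (labX N q s₁ s₂ s₃ s₄ X F₁ F₂ w) * (th Q (dt v w) : ℂ) =
      ∑ w ∈ cw X s₃ s₄ e.1 e.2, u v * (((cl q (rep b) (fun z => (F₂ z).re) w : ℝ) : ℂ) +
        Complex.I * ((cl q (rep b) (fun z => (F₂ z).im) w : ℝ) : ℂ)) * (th Q (dt v w) : ℂ) := by
    intro e v
    unfold cw
    rw [sum_filter]
    refine sum_congr rfl fun w _ => ?_
    rw [D2_lab hF₂, cl_eq, cl_eq]
    unfold win
    by_cases h1 : s₃ * X < (nm w : ℝ) ∧ (nm w : ℝ) ≤ s₄ * X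
    · rw [if_pos h1, if_pos h1]
      by_cases h2 : cz q w = b
      · rw [if_pos h2, if_pos h2, if_pos h2]
        congr 2
        rw [mul_comm Complex.I]
        exact (Complex.re_add_im _).symm
      · rw [if_neg h2, if_neg h2, if_neg h2]
        simp
    · rw [if_neg h1, if_neg h1, ite_self, mul_zero, zero_mul]
  have hE : ∀ e : Gi × Gi, (∑ v ∈ cone X e.1 e.2, ∑ w ∈ cone X e.1 e.2,
      u v * D2 N b (labX N q s₁ s₂ s₃ s₄ X F₁ F₂ w) * (th Q (dt v w) : ℂ)) =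
      ∑ v ∈ cone X e.1 e.2, ∑ w ∈ cw X s₃ s₄ e.1 e.2,
        ((((u v).re * cl q (rep b) (fun z => (F₂ z).re) w * th Q (dt v w) -
          (u v).im * cl q (rep b) (fun z => (F₂ z).im) w * th Q (dt v w) : ℝ) : ℂ) +
        Complex.I * (((u v).re * cl q (rep b) (fun z => (F₂ z).im) w * th Q (dt v w) +
          (u v).im * cl q (rep b) (fun z => (F₂ z).re) w * th Q (dt v w) : ℝ) : ℂ)) := by
    intro e
    refine sum_congr rfl fun v _ => ?_
    rw [hw]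
    refine sum_congr rfl fun w _ => ?_
    conv_lhs => rw [← Complex.re_add_im (u v)]
    push_cast
    linear_combination (((u v).im : ℂ) * (cl q (rep b) (fun z => (F₂ z).im) w : ℂ) *
      (th Q (dt v w) : ℂ)) * Complex.I_sq
  rw [sum_congr rfl fun e _ => hE e]
  push_cast
  simp only [sum_add_distrib, sum_sub_distrib, mul_sum, mul_add]

end Pool.Agent.W370.EX
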